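import Pool.Agent.MP_c9a892_co.H12.Main

/-!
The cube: counting lines, and a lower bound for the dimension that forces monochromatic lines.
-/

set_option autoImplicit false

namespace Pool.Agent.MP_c9a892_co.H12

open Finset

theorem two_mul_pow_le (n : ℕ) (hn : 1 ≤ n) : 2 * n ^ n ≤ (n + 1) ^ n := by
  have h := pow_add_mul_le_add_pow (a := n) (b := 1) (Nat.zero_le _) (Nat.zero_le _) n
  obtain ⟨t, rfl⟩ := Nat.exists_eq_add_of_le' hn
  rw [Nat.add_sub_cancel, mul_one, Nat.cast_id, ← pow_succ'] at h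
  omega

theorem pow_ratio (n t d : ℕ) (hn : 1 ≤ n) (hd : n * t ≤ d) : 2 ^ t * n ^ d ≤ (n + 1) ^ d := by
  obtain ⟨r, rfl⟩ := Nat.exists_eq_add_of_le hd
  rw [pow_add, pow_add, pow_mul, pow_mul, ← mul_assoc, ← mul_pow]
  exact Nat.mul_le_mul (Nat.pow_le_pow_left (two_mul_pow_le n hn) t)
    (Nat.pow_le_pow_left (Nat.le_succ n) r)

theorem add_lt_pow (a n : ℕ) (hn : 2 ≤ n) : a ^ n + a < (a + 1) ^ n := by
  induction n, hn using Nat.le_induction with
  | base => nlinarith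
  | succ n _ ih =>
    rw [pow_succ, pow_succ]
    nlinarith [Nat.zero_le (a ^ n), Nat.zero_le (a * a)]

theorem win_cube (n d m K : ℕ) (hn : 2 ≤ n) (hm : 2 * m + 2 ≤ 2 ^ K) (hd : K * n ^ 2 ≤ d) :
    Win (HasLine (n := n) (d := d)) m ∅ ∅ := by
  classical
  let I := {τ : Fin d → Option (Fin n) // ∃ j, τ j = none}
  let x : I → Fin n → Fin d → Fin n := fun τ i j => (τ.1 j).getD i
  have hinj : ∀ τ, Function.Injective (x τ) := fun τ i i' h => by
    obtain ⟨j, hj⟩ := τ.2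
    simpa [x, hj] using congrFun h j
  refine win_of_count (l := fun τ : I => univ.image (x τ)) (n := n)
    (fun A B h ⟨y, hy, hA⟩ => ⟨y, hy, fun i => h (hA i)⟩)
    (fun ⟨y, _, hA⟩ => by simpa using hA ⟨0, by omega⟩)
    (fun τ => ⟨x τ, ⟨hinj τ, fun j => ?_⟩, fun i => mem_image_of_mem _ (mem_univ i)⟩) hn
    (fun τ => by rw [card_image_of_injective _ (hinj τ)]; simp) (fun τ τ' a b hab h1 h2 h3 h4 => ?_)
    ?_
  · cases h : τ.1 j with
    | none => exact Or.inr (Or.inl fun i => by simp [x, h])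
    | some c => exact Or.inl ⟨c, fun i => by simp [x, h]⟩
  · have key : ∀ σ : I, a ∈ univ.image (x σ) → b ∈ univ.image (x σ) →
        ∀ j, σ.1 j = if a j = b j then some (a j) else none := fun σ ha hb j => by
      obtain ⟨i, -, rfl⟩ := mem_image.1 ha
      obtain ⟨i', -, rfl⟩ := mem_image.1 hb
      have hi : i ≠ i' := fun e => hab (by rw [e])
      cases h : σ.1 j <;> simp [x, h, hi]
    exact Subtype.ext (funext fun j => (key τ h1 h2 j).trans (key τ' h3 h4 j).symm)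
  · have h1 : (n + 1) ^ d ≤ Fintype.card I + n ^ d := by
      have h2 := Fintype.card_le_of_surjective
        (Sum.elim Subtype.val fun (y : Fin d → Fin n) j => some (y j) :
          I ⊕ (Fin d → Fin n) → Fin d → Option (Fin n)) fun τ => by
        by_cases h : ∃ j, τ j = none
        · exact ⟨.inl ⟨τ, h⟩, rfl⟩
        · push Not at h
          exact ⟨.inr fun j => (τ j).get (Option.ne_none_iff_isSome.1 (h j)), by ext j; simp⟩
      simpa using h2
    have h2 := pow_ratio n (K * n) d (by omega) (by nlinarith)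
    have h3 : (2 * m + 1 + 1) ^ n ≤ 2 ^ (K * n) := by
      rw [pow_mul]
      exact Nat.pow_le_pow_left hm n
    have h4 := add_lt_pow (2 * m + 1) n hn
    have h5 : 0 < n ^ d := by positivity
    simp only [Fintype.card_pi, Fintype.card_fin, prod_const, card_univ]
    nlinarith

theorem card_mono_le {M k : ℕ} (p : Fin k → Fin M) (hp : Function.Injective p) (b : Bool) :
    (univ.filter fun c : Fin M → Bool => ∀ i, c (p i) = b).card * 2 ^ k ≤ 2 ^ M := by
  classical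
  have h := card_le_card_of_injOn
    (s := (univ.filter fun c : Fin M → Bool => ∀ i, c (p i) = b) ×ˢ (univ : Finset (Fin k → Bool)))
    (t := (univ : Finset (Fin M → Bool))) (fun z => Function.extend p z.2 z.1)
    (fun _ _ => mem_univ _) (by
      rintro ⟨c, e⟩ h1 ⟨c', e'⟩ h2 h
      have h1' := (mem_filter.1 (mem_product.1 (mem_coe.1 h1)).1).2
      have h2' := (mem_filter.1 (mem_product.1 (mem_coe.1 h2)).1).2
      refine Prod.ext (funext fun j => ?_) (funext fun i => ?_)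
      · by_cases hj : ∃ i, p i = j
        · obtain ⟨i, rfl⟩ := hj
          exact (h1' i).trans (h2' i).symm
        · simpa [Function.extend_apply' _ _ _ hj] using congrFun h j
      · simpa [hp.extend_apply] using congrFun h (p i))
  simpa using h

theorem exists_col (M k : ℕ) (h : 2 * M ^ 2 < 2 ^ k) : ∃ c : ℕ → Bool, ∀ a r : ℕ, 0 < r → r < M →
    (∀ i < k, a + i * r < M) → ∀ b, ¬ ∀ i < k, c (a + i * r) = b := by
  classical
  by_contra hc
  push Not at hc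
  have hk : 0 < k := Nat.pos_of_ne_zero (by
    rintro rfl
    obtain ⟨a, r, h1, h2, -⟩ := hc fun _ => true
    have : 0 < M ^ 2 := pow_pos (by omega) 2
    omega)
  let bad : Fin M × Fin M × Bool → Finset (Fin M → Bool) := fun z => univ.filter fun c =>
    0 < z.2.1.1 ∧ ∀ i < k, ∃ h : z.1.1 + i * z.2.1.1 < M, c ⟨_, h⟩ = z.2.2
  have h1 : (univ : Finset (Fin M → Bool)) ⊆ univ.biUnion bad := fun c _ => by
    obtain ⟨a, r, h1, h2, h3, b, h4⟩ := hc fun t => if h : t < M then c ⟨t, h⟩ else true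
    refine mem_biUnion.2 ⟨(⟨a, by simpa using h3 0 hk⟩, ⟨r, h2⟩, b), mem_univ _,
      mem_filter.2 ⟨mem_univ _, h1, fun i hi => ⟨h3 i hi, ?_⟩⟩⟩
    simpa [h3 i hi] using h4 i hi
  have h2 : ∀ z, (bad z).card * 2 ^ k ≤ 2 ^ M := fun z => by
    rcases (bad z).eq_empty_or_nonempty with e | ⟨c, hc⟩
    · simp [e]
    · obtain ⟨h0, h3⟩ := (mem_filter.1 hc).2
      refine le_trans (Nat.mul_le_mul_right _ (card_le_card fun c' hc' => ?_))
        (card_mono_le (fun i : Fin k => (⟨_, (h3 i i.2).1⟩ : Fin M)) (fun i i' e => ?_) z.2.2)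
      · exact mem_filter.2 ⟨mem_univ _, fun i => ((mem_filter.1 hc').2.2 i i.2).2⟩
      · have := congrArg Fin.val e
        exact Fin.ext (Nat.eq_of_mul_eq_mul_right h0 (Nat.add_left_cancel this))
  have h3 := (card_le_card h1).trans card_biUnion_le
  have h4 : (∑ z, (bad z).card) * 2 ^ k ≤ M * (M * 2) * 2 ^ M := by
    rw [sum_mul]
    exact (sum_le_card_nsmul _ _ _ fun z _ => h2 z).trans (by simp)
  simp only [card_univ, Fintype.card_pi, Fintype.card_bool, prod_const, Fintype.card_fin] at h3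
  have h5 : 0 < 2 ^ M := by positivity
  nlinarith [Nat.mul_le_mul_right (2 ^ k) h3]

theorem hj_lower (n h : ℕ) (hn : 2 ≤ n) (H : ∀ col : (Fin h → Fin n) → Bool,
    ∃ x : Fin n → Fin h → Fin n, IsLine x ∧ ∃ b, ∀ i, col (x i) = b) :
    2 ^ ((n + 1) / 2) ≤ 2 * (h * n + 1) ^ 2 := by
  classical
  by_contra hlt
  obtain ⟨c, hc⟩ := exists_col (h * n + 1) ((n + 1) / 2) (by omega)
  let f : Fin n → ℕ := fun a => min a.1 a.rev.1
  obtain ⟨x, ⟨hinj, hx⟩, b, hb⟩ := H fun y => c (∑ j, f (y j))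
  let z : Fin n := ⟨0, by omega⟩
  let act : Finset (Fin h) := univ.filter fun j => ¬ ∃ c, ∀ i, x i j = c
  have hS : ∀ (i : ℕ) (hi : i < (n + 1) / 2), ∑ j, f (x ⟨i, by omega⟩ j) =
      ∑ j, f (x z j) + i * act.card := fun i hi => by
    rw [card_filter, mul_sum, ← sum_add_distrib]
    refine sum_congr rfl fun j _ => ?_
    by_cases hj : ∃ c, ∀ i, x i j = c
    · obtain ⟨c, hc⟩ := hj
      rw [if_neg (not_not.2 ⟨c, hc⟩), hc, hc]
      simp
    · rw [if_pos hj]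
      rcases (hx j).resolve_left hj with h1 | h1 <;> rw [h1, h1] <;>
        simp only [f, z, Fin.val_rev] <;> omega
  have hle : ∀ y : Fin h → Fin n, ∑ j, f (y j) < h * n + 1 := fun y => Nat.lt_succ_of_le
    ((sum_le_card_nsmul _ _ n fun j _ => (min_le_left _ _).trans (y j).2.le).trans (by simp))
  refine hc (∑ j, f (x z j)) act.card (card_pos.2 ?_) ?_ (fun i hi => hS i hi ▸ hle _) b
    fun i hi => hS i hi ▸ hb _
  · by_contra he
    have h1 : x z = x ⟨1, by omega⟩ := funext fun j => by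
      by_contra hj
      exact he ⟨j, mem_filter.2 ⟨mem_univ _, fun ⟨c, hc⟩ => hj ((hc _).trans (hc _).symm)⟩⟩
    simpa [z] using hinj h1
  · have := card_le_univ act
    rw [Fintype.card_fin] at this
    nlinarith

theorem growth (C : ℕ) : ∃ n₀ : ℕ, ∀ n ≥ n₀,
    2 * (C * ((2 ^ (n / 5) + 2) * n ^ 2) * n + 1) ^ 2 < 2 ^ ((n + 1) / 2) := by
  have h := tendsto_pow_const_div_const_pow_of_one_lt 6 (one_lt_two (α := ℝ))
  have hpos : (0 : ℝ) < 1 / (2 * (3 * C + 1) ^ 2 * 20 ^ 6 + 1) := by positivity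
  obtain ⟨t₀, ht₀⟩ := Filter.eventually_atTop.1 (h.eventually (gt_mem_nhds hpos))
  refine ⟨10 * (t₀ + 1), fun n hn => ?_⟩
  have h1 := ht₀ (n / 10) (by omega)
  rw [div_lt_div_iff₀ (by positivity) (by positivity), one_mul] at h1
  have h2 : (n / 10) ^ 6 * (2 * (3 * C + 1) ^ 2 * 20 ^ 6 + 1) < 2 ^ (n / 10) := by
    exact_mod_cast h1
  have h3 : n ^ 6 ≤ (20 * (n / 10)) ^ 6 := Nat.pow_le_pow_left (by omega) 6
  have h4 : 2 ^ (n / 10) * (2 ^ (n / 5)) ^ 2 ≤ 2 ^ ((n + 1) / 2) := by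
    rw [← pow_mul, ← pow_add]
    exact Nat.pow_le_pow_right (by omega) (by omega)
  have h5 : 1 ≤ 2 ^ (n / 5) := Nat.one_le_two_pow
  have h6 : 1 ≤ n ^ 3 := Nat.one_le_pow _ _ (by omega)
  generalize 2 ^ (n / 5) = P at h4 h5 ⊢
  have h7 : C * ((P + 2) * n ^ 2) * n + 1 ≤ (3 * C + 1) * n ^ 3 * P := by
    have e : C * ((P + 2) * n ^ 2) * n = C * n ^ 3 * (P + 2) := by ring
    have a : C * n ^ 3 * (P + 2) ≤ C * n ^ 3 * (3 * P) := Nat.mul_le_mul_left _ (by omega)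
    have b : 1 ≤ n ^ 3 * P := Nat.mul_le_mul h6 h5
    nlinarith
  have h8 : 2 * (3 * C + 1) ^ 2 * n ^ 6 < 2 ^ (n / 10) := by
    rw [mul_pow] at h3
    have := Nat.mul_le_mul_left (2 * (3 * C + 1) ^ 2) h3
    nlinarith [Nat.zero_le ((n / 10) ^ 6)]
  calc 2 * (C * ((P + 2) * n ^ 2) * n + 1) ^ 2 ≤ 2 * ((3 * C + 1) * n ^ 3 * P) ^ 2 := by gcongr
    _ = 2 * (3 * C + 1) ^ 2 * n ^ 6 * P ^ 2 := by ring
    _ < 2 ^ (n / 10) * P ^ 2 := Nat.mul_lt_mul_of_pos_right h8 (by positivity)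
    _ ≤ _ := h4

theorem sparse (ε : ℝ) (hε : 0 < ε) : ∃ n₀ : ℕ, ∀ n ≥ n₀, ∀ h : ℕ,
    (∀ col : (Fin h → Fin n) → Bool,
      ∃ x : Fin n → Fin h → Fin n, IsLine x ∧ ∃ b, ∀ i, col (x i) = b) →
    ∀ d : ℕ, ε * h ≤ d → ∀ m ≤ 2 ^ 2 ^ (n / 5), Win (HasLine (n := n) (d := d)) m ∅ ∅ := by
  obtain ⟨C, hC⟩ := exists_nat_ge (1 / ε)
  obtain ⟨n₀, hn₀⟩ := growth C
  refine ⟨max n₀ 2, fun n hn h H d hd m hm => ?_⟩
  have h2 : 2 ≤ n := le_of_max_le_right hn
  refine win_cube n d m (2 ^ (n / 5) + 2) h2 ?_ ?_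
  · have : 1 ≤ 2 ^ 2 ^ (n / 5) := Nat.one_le_two_pow
    rw [pow_add]
    omega
  · by_contra hlt
    have h3 : h ≤ C * d := by
      have h4 : (h : ℝ) ≤ 1 / ε * d := by
        rw [one_div, ← div_eq_inv_mul, le_div_iff₀' hε]
        exact hd
      exact_mod_cast h4.trans (mul_le_mul_of_nonneg_right hC (Nat.cast_nonneg d))
    have h4 : h ≤ C * ((2 ^ (n / 5) + 2) * n ^ 2) :=
      h3.trans (Nat.mul_le_mul_left _ (by omega))
    have h5 := hn₀ n (le_of_max_le_left hn)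
    have h6 := hj_lower n h h2 H
    have h7 : 2 * (h * n + 1) ^ 2 ≤ 2 * (C * ((2 ^ (n / 5) + 2) * n ^ 2) * n + 1) ^ 2 := by gcongr
    omega

end Pool.Agent.MP_c9a892_co.H12
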