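import Mathlib

set_option autoImplicit false

namespace Pool.Agent.MP_c9a892_co.H12

/-- `x` lists the points of a geometric line of the cube -/
def IsLine {n d : ℕ} (x : Fin n → Fin d → Fin n) : Prop :=
  Function.Injective x ∧ ∀ j, (∃ c, ∀ i, x i j = c) ∨ (∀ i, x i j = i) ∨ ∀ i, x i j = i.rev

/-- the set `A` contains a geometric line -/
def HasLine {n d : ℕ} (A : Finset (Fin d → Fin n)) : Prop :=
  ∃ x : Fin n → Fin d → Fin n, IsLine x ∧ ∀ i, x i ∈ A

/-- `Win H m A B`: the first player owns `A`, the second player owns `B`, and the first player can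
force to own a winning set before the second player does.  Moves are numbered from `0`; the second
player makes the move number `t` exactly when `t % (2 * m + 1)` is odd. -/
inductive Win {V : Type} [DecidableEq V] (H : Finset V → Prop) (m : ℕ) :
    Finset V → Finset V → Prop
  | done (A B : Finset V) : H A → Win H m A B
  | first (A B : Finset V) (x : V) : (A.card + B.card) % (2 * m + 1) % 2 = 0 → x ∉ A → x ∉ B →
      Win H m (insert x A) B → Win H m A B
  | second (A B : Finset V) : (A.card + B.card) % (2 * m + 1) % 2 = 1 → (∃ y, y ∉ A ∧ y ∉ B) →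
      (∀ y, y ∉ A → y ∉ B → ¬ H (insert y B)) →
      (∀ y, y ∉ A → y ∉ B → Win H m A (insert y B)) → Win H m A B

end Pool.Agent.MP_c9a892_co.H12
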