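import Pool.Agent.MP_c9a892_co.H12.Steal

/-!
The extra moves follow a potential function, the other moves follow a non-losing strategy.
-/

set_option autoImplicit false

namespace Pool.Agent.MP_c9a892_co.H12

open Finset

variable {V I : Type} [DecidableEq V] [Fintype V] [Fintype I]

/-- the weight of the lines through a point -/
def wt (l : I → Finset V) (w : I → ℕ) (y : V) : ℕ := ∑ i, if y ∈ l i then w i else 0

/-- the potential invariant; `O` is the set of claimed points -/
structure Pot (l : I → Finset V) (m n : ℕ) (A O : Finset V) (w : I → ℕ) (k M : ℕ) : Prop where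
  live : ∀ i, w i ≠ 0 → ∀ z ∈ l i, z ∈ O → z ∈ A
  le : ∀ i, w i ≤ (2 * m + 1) ^ (l i ∩ O).card
  pt : ∀ y, y ∉ O → wt l w y ≤ M
  big : k * M + Oᶜ.card * (2 * m + 1) ^ n < ∑ i, w i

variable {l : I → Finset V} {m n : ℕ} {A O : Finset V} {w : I → ℕ} {k M : ℕ}

theorem card_compl_insert {y : V} (hy : y ∉ O) : (insert y O)ᶜ.card + 1 = Oᶜ.card := by
  rw [compl_insert, card_erase_add_one (mem_compl.2 hy)]

theorem Pot.block (h : Pot l m n A O w (k + 1) M) {y : V} (hy : y ∉ O) {A' : Finset V}
    (hA : A ⊆ A') : Pot l m n A' (insert y O) (fun i => if y ∈ l i then 0 else w i) k M := by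
  refine ⟨fun i hi z hz hO => ?_, fun i => ?_, fun z hz => ?_, ?_⟩
  · by_cases hyl : y ∈ l i
    · simp [hyl] at hi
    · rw [if_neg hyl] at hi
      rcases mem_insert.1 hO with rfl | hO
      · exact absurd hz hyl
      · exact hA (h.live i hi z hz hO)
  · refine le_trans ?_ ((h.le i).trans (Nat.pow_le_pow_right (by omega)
      (card_le_card (inter_subset_inter_left (subset_insert _ _)))))
    split_ifs <;> simp
  · refine le_trans (sum_le_sum fun i _ => ?_) (h.pt z fun h' => hz (mem_insert_of_mem h'))
    by_cases a : z ∈ l i <;> by_cases b : y ∈ l i <;> simp [a, b]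
  · have h1 : ∑ i, w i = (∑ i, if y ∈ l i then 0 else w i) + wt l w y := by
      rw [wt, ← sum_add_distrib]
      exact sum_congr rfl fun i _ => by split_ifs <;> simp
    have h2 := h.pt y hy
    have h3 := h.big
    rw [← card_compl_insert hy] at h3
    nlinarith [Nat.zero_le ((2 * m + 1) ^ n)]

theorem Pot.make (hn : 2 ≤ n) (hc : ∀ i, (l i).card = n)
    (hp : ∀ i i' x y, x ≠ y → x ∈ l i → y ∈ l i → x ∈ l i' → y ∈ l i' → i = i')
    (h : Pot l m n A O w 0 M) {x : V} (hx : x ∉ O) (hmax : ∀ y, y ∉ O → wt l w y ≤ wt l w x) :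
    Pot l m n (insert x A) (insert x O) (fun i => if x ∈ l i then (2 * m + 1) * w i else w i)
      (2 * m) (wt l w x + 2 * m * (2 * m + 1) ^ (n - 2)) := by
  classical
  refine ⟨fun i hi z hz hO => ?_, fun i => ?_, fun y hy => ?_, ?_⟩
  · rcases mem_insert.1 hO with rfl | hO
    · exact mem_insert_self _ _
    · refine mem_insert_of_mem (h.live i (fun h0 => hi ?_) z hz hO)
      simp [h0]
  · by_cases hxl : x ∈ l i
    · rw [if_pos hxl, inter_insert_of_mem hxl, card_insert_of_notMem (by simp [hx]), pow_succ']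
      exact Nat.mul_le_mul_left _ (h.le i)
    · rw [if_neg hxl, inter_insert_of_notMem hxl]
      exact h.le i
  · have hyx : y ≠ x := fun e => hy (e ▸ mem_insert_self _ _)
    have hyO : y ∉ O := fun e => hy (mem_insert_of_mem e)
    have h1 : wt l (fun i => if x ∈ l i then (2 * m + 1) * w i else w i) y =
        wt l w y + 2 * m * ∑ i ∈ univ.filter (fun i => y ∈ l i ∧ x ∈ l i), w i := by
      rw [wt, wt, sum_filter, mul_sum, ← sum_add_distrib]
      refine sum_congr rfl fun i _ => ?_
      by_cases a : y ∈ l i <;> by_cases b : x ∈ l i <;> simp [a, b]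
      ring
    have h2 : ∑ i ∈ univ.filter (fun i => y ∈ l i ∧ x ∈ l i), w i ≤ (2 * m + 1) ^ (n - 2) := by
      have h3 : (univ.filter (fun i => y ∈ l i ∧ x ∈ l i)).card ≤ 1 :=
        card_le_one.2 fun i hi i' hi' => hp i i' y x hyx (mem_filter.1 hi).2.1 (mem_filter.1 hi).2.2
          (mem_filter.1 hi').2.1 (mem_filter.1 hi').2.2
      refine (sum_le_card_nsmul _ _ ((2 * m + 1) ^ (n - 2)) fun i hi => ?_).trans ?_
      · refine (h.le i).trans (Nat.pow_le_pow_right (by omega) ?_)
        have h4 : l i ∩ O ⊆ ((l i).erase x).erase y := fun z hz => by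
          have := mem_inter.1 hz
          exact mem_erase.2 ⟨fun e => hyO (e ▸ this.2), mem_erase.2 ⟨fun e => hx (e ▸ this.2), this.1⟩⟩
        have h5 := card_le_card h4
        rw [card_erase_of_mem (mem_erase.2 ⟨hyx, (mem_filter.1 hi).2.1⟩),
          card_erase_of_mem (mem_filter.1 hi).2.2, hc] at h5
        omega
      · rw [smul_eq_mul]
        exact (Nat.mul_le_mul_right _ h3).trans (by simp)
    rw [h1]
    exact Nat.add_le_add (hmax y hyO) (Nat.mul_le_mul_left _ h2)
  · have h1 : (∑ i, if x ∈ l i then (2 * m + 1) * w i else w i) = ∑ i, w i + 2 * m * wt l w x := by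
      rw [wt, mul_sum, ← sum_add_distrib]
      refine sum_congr rfl fun i _ => ?_
      split_ifs
      · ring
      · simp
    have h3 := h.big
    rw [← card_compl_insert hx] at h3
    have h4 : 2 * m * (2 * m * (2 * m + 1) ^ (n - 2)) ≤ (2 * m + 1) ^ n := by
      obtain ⟨t, rfl⟩ := Nat.exists_eq_add_of_le hn
      rw [Nat.add_sub_cancel_left, pow_add]
      nlinarith [Nat.zero_le ((2 * m + 1) ^ t), Nat.zero_le (m * (2 * m + 1) ^ t)]
    rw [h1]
    nlinarith

theorem win_of_pot {H : Finset V → Prop} (hH : ∀ A B, A ⊆ B → H A → H B) (hl : ∀ i, H (l i))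
    (hn : 2 ≤ n) (hc : ∀ i, (l i).card = n)
    (hp : ∀ i i' x y, x ≠ y → x ∈ l i → y ∈ l i → x ∈ l i' → y ∈ l i' → i = i') (f : ℕ) :
    ∀ (A B : Finset V) (w : I → ℕ) (k M : ℕ), (A ∪ B)ᶜ.card = f → Pot l m n A (A ∪ B) w k M →
      (A.card + B.card) % (2 * m + 1) + k = 2 * m →
      ¬ FW H B A (decide ((A.card + B.card) % (2 * m + 1) % 2 = 1)) → Win H m A B := by
  induction f with
  | zero =>
    intro A B w k M hf hpot _ _
    obtain ⟨i, -, hi⟩ := exists_ne_zero_of_sum_ne_zero (s := univ) (f := w)
      (Nat.ne_of_gt ((Nat.zero_le _).trans_lt hpot.big))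
    refine .done _ _ (hH _ _ (fun z hz => hpot.live i hi z hz ?_) (hl i))
    by_contra h
    have := mem_compl.2 h
    rw [card_eq_zero.1 hf] at this
    simp at this
  | succ f ih =>
    intro A B w k M hf hpot hk hs
    have hne : (A ∪ B)ᶜ.Nonempty := card_pos.1 (by omega)
    have hfree : ∀ y, y ∉ A → y ∉ B → y ∉ A ∪ B := fun y a b h => (mem_union.1 h).elim a b
    have hcard : ∀ y, y ∉ A ∪ B → (insert y (A ∪ B))ᶜ.card = f := fun y hy => by
      have := card_compl_insert hy
      omega
    have hmod : ∀ t : ℕ, (t + 1) % (2 * m + 1) =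
        if t % (2 * m + 1) = 2 * m then 0 else t % (2 * m + 1) + 1 := fun t => by
      have h1 : t % (2 * m + 1) < 2 * m + 1 := Nat.mod_lt _ (by omega)
      rw [← Nat.mod_add_mod]
      split_ifs with h
      · rw [h, Nat.mod_self]
      · exact Nat.mod_eq_of_lt (by omega)
    cases k with
    | zero =>
      obtain ⟨x, hx, hmax⟩ := exists_max_image _ (wt l w) hne
      have hx' := mem_compl.1 hx
      have hxA : x ∉ A := fun h => hx' (mem_union_left _ h)
      have e : ((insert x A).card + B.card) % (2 * m + 1) = 0 := by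
        rw [card_insert_of_notMem hxA, Nat.add_right_comm, hmod, if_pos (by omega)]
      refine .first _ _ x (by omega) hxA (fun h => hx' (mem_union_right _ h))
        (ih _ B _ _ _ (by rw [insert_union]; exact hcard x hx')
          (by rw [insert_union]; exact hpot.make hn hc hp hx' fun y hy => hmax y (mem_compl.2 hy))
          (by omega) fun h => hs (h.mono hH B A _ le_rfl (subset_insert _ _) ?_))
      rw [e]
      simp
    | succ k =>
      have hmod' := hmod (A.card + B.card)
      rw [if_neg (by omega)] at hmod'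
      obtain ⟨y₀, hy₀⟩ := hne
      have hy₁ : y₀ ∉ A := fun h => mem_compl.1 hy₀ (mem_union_left _ h)
      have hy₂ : y₀ ∉ B := fun h => mem_compl.1 hy₀ (mem_union_right _ h)
      by_cases hpar : (A.card + B.card) % (2 * m + 1) % 2 = 1
      · rw [decide_eq_true hpar] at hs
        refine .second _ _ hpar ⟨y₀, hy₁, hy₂⟩
          (fun y a b h => hs (.mine _ _ y b a (.done _ _ _ h))) fun y a b => ?_
        have e : (A.card + (insert y B).card) % (2 * m + 1) =
            (A.card + B.card) % (2 * m + 1) + 1 := by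
          rw [card_insert_of_notMem b, ← Nat.add_assoc, hmod']
        refine ih A _ _ k M (by rw [union_insert]; exact hcard y (hfree y a b))
          (by rw [union_insert]; exact hpot.block (hfree y a b) le_rfl) (by omega) fun h => ?_
        rw [decide_eq_false (by omega)] at h
        exact hs (.mine _ _ y b a h)
      · rw [decide_eq_false hpar] at hs
        by_cases h1 : ∃ x, x ∉ B ∧ x ∉ A ∧ H (insert x A)
        · obtain ⟨x, b, a, h⟩ := h1
          exact .first _ _ x (by omega) a b (.done _ _ h)
        · have h2 : ∃ x, x ∉ B ∧ x ∉ A ∧ ¬ FW H B (insert x A) true := by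
            by_contra h3
            push Not at h1 h3
            exact hs (.theirs _ _ ⟨y₀, hy₂, hy₁⟩ h1 h3)
          obtain ⟨x, b, a, h⟩ := h2
          have e : ((insert x A).card + B.card) % (2 * m + 1) =
              (A.card + B.card) % (2 * m + 1) + 1 := by
            rw [card_insert_of_notMem a, Nat.add_right_comm, hmod']
          refine .first _ _ x (by omega) a b
            (ih _ B _ k M (by rw [insert_union]; exact hcard x (hfree x a b))
              (by rw [insert_union]; exact hpot.block (hfree x a b) (subset_insert _ _))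
              (by omega) ?_)
          rwa [decide_eq_true (by omega)]

theorem win_of_count {H : Finset V → Prop} (hH : ∀ A B, A ⊆ B → H A → H B) (h0 : ¬ H ∅)
    (hl : ∀ i, H (l i)) (hn : 2 ≤ n) (hc : ∀ i, (l i).card = n)
    (hp : ∀ i i' x y, x ≠ y → x ∈ l i → y ∈ l i → x ∈ l i' → y ∈ l i' → i = i')
    (hI : Fintype.card V * (2 * m + (2 * m + 1) ^ n) < Fintype.card I) : Win H m ∅ ∅ := by
  classical
  refine win_of_pot hH hl hn hc hp _ ∅ ∅ (fun _ => 1) (2 * m) (Fintype.card V) rfl
    ⟨fun _ _ _ _ h => by simp at h, fun _ => Nat.one_le_pow _ _ (by omega), fun y _ => ?_, ?_⟩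
    (by simp) (by simpa using steal hH h0)
  · have h1 : ∀ i, ∃ z ∈ l i, z ≠ y := fun i => exists_mem_ne (by rw [hc]; omega) y
    choose z hz hz' using h1
    rw [wt, ← card_filter]
    refine (card_le_card_of_injOn z (fun _ _ => mem_univ _) fun i hi i' hi' e => ?_).trans
      card_univ.le
    exact hp i i' y (z i) (hz' i).symm (mem_filter.1 (mem_coe.1 hi)).2 (hz i)
      (mem_filter.1 (mem_coe.1 hi')).2 (e ▸ hz i')
  · simp only [union_empty, compl_empty, card_univ, sum_const, smul_eq_mul, mul_one]
    nlinarith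

end Pool.Agent.MP_c9a892_co.H12
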