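import Pool.Agent.MP_c9a892_co.H12.Defs

/-!
Strategy stealing in the ordinary alternating game.
-/

set_option autoImplicit false

namespace Pool.Agent.MP_c9a892_co.H12

variable {V : Type} [DecidableEq V]

/-- the owner of `X` can force a win in the alternating game; the flag says that he is to move -/
inductive FW (H : Finset V → Prop) : Finset V → Finset V → Bool → Prop
  | done (X Y : Finset V) (b : Bool) : H X → FW H X Y b
  | mine (X Y : Finset V) (x : V) : x ∉ X → x ∉ Y → FW H (insert x X) Y false → FW H X Y true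
  | theirs (X Y : Finset V) : (∃ y, y ∉ X ∧ y ∉ Y) → (∀ y, y ∉ X → y ∉ Y → ¬ H (insert y Y)) →
      (∀ y, y ∉ X → y ∉ Y → FW H X (insert y Y) true) → FW H X Y false

variable {H : Finset V → Prop}

theorem FW.full [Fintype V] (hH : ∀ A B, A ⊆ B → H A → H B) {X Y : Finset V} {b : Bool}
    (h : FW H X Y b) : H (X ∪ Yᶜ) := by
  induction h with
  | done X Y b h => exact hH _ _ Finset.subset_union_left h
  | mine X Y x _ hy _ ih =>
    refine hH _ _ (fun z hz => ?_) ih
    simp only [Finset.mem_union, Finset.mem_insert, Finset.mem_compl] at hz ⊢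
    rcases hz with (rfl | hz) | hz
    · exact Or.inr hy
    · exact Or.inl hz
    · exact Or.inr hz
  | theirs X Y hf _ _ ih =>
    obtain ⟨y, h1, h2⟩ := hf
    refine hH _ _ (fun z hz => ?_) (ih y h1 h2)
    simp only [Finset.mem_union, Finset.mem_insert, Finset.mem_compl, not_or] at hz ⊢
    exact hz.imp id fun h => h.2

theorem FW.mono [Fintype V] (hH : ∀ A B, A ⊆ B → H A → H B) {X Y : Finset V} {b : Bool}
    (h : FW H X Y b) : ∀ (X' Y' : Finset V) (b' : Bool), X ⊆ X' → Y' ⊆ Y → (b = true → b' = true) →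
      FW H X' Y' b' := by
  induction h with
  | done X Y b h => exact fun X' Y' b' hX _ _ => .done _ _ _ (hH _ _ hX h)
  | mine X Y x _ hy _ ih =>
    intro X' Y' b' hX hY hb
    obtain rfl := hb rfl
    by_cases hx : x ∈ X'
    · exact ih X' Y' true (Finset.insert_subset hx hX) hY fun _ => rfl
    · exact .mine _ _ x hx (fun h => hy (hY h))
        (ih _ Y' false (Finset.insert_subset_insert x hX) hY fun h => h)
  | theirs X Y hf h1 h2 ih =>
    intro X' Y' b' hX hY _
    obtain ⟨y₀, hy₁, hy₂⟩ := hf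
    cases b' with
    | true => exact ih y₀ hy₁ hy₂ X' Y' true hX (hY.trans (Finset.subset_insert _ _)) fun _ => rfl
    | false =>
      by_cases hfree : ∃ y, y ∉ X' ∧ y ∉ Y'
      · have key : ∀ y, y ∉ X' → ∃ z, z ∉ X ∧ z ∉ Y ∧ insert y Y' ⊆ insert z Y := fun y hy => by
          by_cases h : y ∈ Y
          · exact ⟨y₀, hy₁, hy₂, (Finset.insert_subset h hY).trans (Finset.subset_insert _ _)⟩
          · exact ⟨y, fun h' => hy (hX h'), h, Finset.insert_subset_insert y hY⟩
        refine .theirs _ _ hfree (fun y hy _ h => ?_) fun y hy _ => ?_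
        · obtain ⟨z, a, b, c⟩ := key y hy
          exact h1 z a b (hH _ _ c h)
        · obtain ⟨z, a, b, c⟩ := key y hy
          exact ih z a b X' _ true hX c fun _ => rfl
      · refine .done _ _ _ (hH _ _ (fun z hz => ?_) ((FW.theirs X Y ⟨y₀, hy₁, hy₂⟩ h1 h2).full hH))
        by_contra hz'
        rcases Finset.mem_union.1 hz with h | h
        · exact hz' (hX h)
        · exact hfree ⟨z, hz', fun h' => Finset.mem_compl.1 h (hY h')⟩

theorem FW.excl {X Y : Finset V} {b : Bool} (h : FW H X Y b) :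
    ¬ H X → ¬ H Y → ¬ FW H Y X (!b) := by
  induction h with
  | done X Y b h => exact fun h' _ _ => h' h
  | mine X Y x hx hy _ ih =>
    intro _ hY h
    cases h with
    | done _ _ _ h => exact hY h
    | theirs _ _ _ h1 h2 => exact ih (h1 x hy hx) hY (h2 x hy hx)
  | theirs X Y _ h1 _ ih =>
    intro hX hY h
    cases h with
    | done _ _ _ h => exact hY h
    | mine _ _ y a b c => exact ih y b a hX (h1 y b a) c

theorem steal [Fintype V] (hH : ∀ A B, A ⊆ B → H A → H B) (h0 : ¬ H ∅) : ¬ FW H ∅ ∅ false :=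
  fun h => h.excl h0 h0 (h.mono hH ∅ ∅ true le_rfl le_rfl fun _ => rfl)

end Pool.Agent.MP_c9a892_co.H12
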